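import Pool.Agent.H242.GX.Stm2
import Pool.Agent.H758.GX.INV

/-!
# GX-MOD: change of the parameter on the tangent lines
-/

set_option autoImplicit false

open Set Filter Topology
open scoped ContDiff

namespace Pool.Agent.H181.GX

open Pool.Agent.H242.GX
open Pool.Agent.H758.GX (local_inverse deriv_snd)

/-- parametric inverse function theorem, global version (after `gx_INV` of helper758) -/
theorem inv_global (f : ℝ × ℝ → ℝ) (hf : ContDiff ℝ ∞ f)
    (hpos : ∀ θ β : ℝ, 0 < deriv (fun b => f (θ, b)) β)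
    (hsurj : ∀ θ T : ℝ, ∃ β₁ β₂ : ℝ, f (θ, β₁) ≤ T ∧ T ≤ f (θ, β₂)) :
    ∃ g : ℝ × ℝ → ℝ, ContDiff ℝ ∞ g ∧ (∀ θ t : ℝ, f (θ, g (θ, t)) = t) ∧
      ∀ θ β : ℝ, g (θ, f (θ, β)) = β := by
  have hcd : ∀ θ β : ℝ, ContDiffAt ℝ ∞ f (θ, β) := fun θ β => hf.contDiffAt
  have hdiff : ∀ θ β : ℝ, DifferentiableAt ℝ f (θ, β) := fun θ β =>
    (hcd θ β).differentiableAt (by simp)
  have hcont : ∀ θ : ℝ, Continuous (fun b => f (θ, b)) := fun θ =>
    hf.continuous.comp (by fun_prop)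
  have hmono : ∀ θ : ℝ, StrictMono (fun b => f (θ, b)) := fun θ =>
    strictMono_of_deriv_pos (hpos θ)
  have hex : ∀ x : ℝ × ℝ, ∃ β : ℝ, f (x.1, β) = x.2 := by
    rintro ⟨θ, t⟩
    obtain ⟨b1, b2, h3, h4⟩ := hsurj θ t
    have hiv := intermediate_value_uIcc (a := b1) (b := b2) ((hcont θ).continuousOn)
    have hmem : t ∈ uIcc (f (θ, b1)) (f (θ, b2)) := Icc_subset_uIcc ⟨h3, h4⟩
    obtain ⟨β, -, hβ2⟩ := hiv hmem
    exact ⟨β, hβ2⟩
  choose g hg2 using hex
  have huniq : ∀ θ β t : ℝ, f (θ, β) = t → g (θ, t) = β := by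
    intro θ β t h
    refine (hmono θ).injective ?_
    show f (θ, g (θ, t)) = f (θ, β)
    rw [h]
    exact hg2 (θ, t)
  refine ⟨g, ?_, fun θ t => hg2 (θ, t), fun θ β => huniq θ β _ rfl⟩
  rw [contDiff_iff_contDiffAt]
  rintro ⟨θ₀, t₀⟩
  set β₀ := g (θ₀, t₀) with hβ₀
  let F : ℝ × ℝ → ℝ × ℝ := fun x => (x.1, f x)
  have hF : ContDiffAt ℝ ∞ F (θ₀, β₀) := contDiffAt_fst.prodMk (hcd θ₀ β₀)
  have hFx : F (θ₀, β₀) = (θ₀, t₀) := by
    simp only [F]
    rw [hg2 (θ₀, t₀)]
  have hfd : fderiv ℝ F (θ₀, β₀) = (ContinuousLinearMap.fst ℝ ℝ ℝ).prod (fderiv ℝ f (θ₀, β₀)) := by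
    exact (hasFDerivAt_fst.prodMk (hdiff θ₀ β₀).hasFDerivAt).fderiv
  have hinj : Function.Injective (fderiv ℝ F (θ₀, β₀)) := by
    rw [hfd, injective_iff_map_eq_zero]
    rintro ⟨u, v⟩ huv
    simp only [ContinuousLinearMap.prod_apply, ContinuousLinearMap.coe_fst', Prod.mk_eq_zero] at huv
    obtain ⟨hu, hv⟩ := huv
    subst hu
    have h3 : ((0, v) : ℝ × ℝ) = v • (0, 1) := by simp
    rw [h3, map_smul, ← deriv_snd (hdiff θ₀ β₀), smul_eq_mul, mul_eq_zero] at hv
    rcases hv with hv | hv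
    · simp [hv]
    · exact absurd hv (hpos θ₀ β₀).ne'
  obtain ⟨G, hG1, hG2, hG3⟩ := local_inverse hF hinj
  rw [hFx] at hG1 hG2 hG3
  have heq : g =ᶠ[𝓝 ((θ₀, t₀) : ℝ × ℝ)] fun y => (G y).2 := by
    filter_upwards [hG3] with y hy1
    have h5 : (F (G y)).1 = y.1 := by rw [hy1]
    have h6 : (F (G y)).2 = y.2 := by rw [hy1]
    simp only [F] at h5 h6
    exact huniq y.1 (G y).2 y.2 (by rw [← h5]; exact h6)
  exact (contDiffAt_snd.comp (θ₀, t₀) hG1).congr_of_eventuallyEq heq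

/-- the bump function -/
theorem exists_bump : ∃ (B : ℝ → ℝ) (M : ℝ), ContDiff ℝ ∞ B ∧ (∀ s, |s| ≤ 1 → B s = 1) ∧
    (∀ s, 2 ≤ |s| → B s = 0) ∧ (∀ s, |B s * s| ≤ 2) ∧ (∀ s, B (-s) = B s) ∧ 0 ≤ M ∧
    ∀ s, |s ^ 2 * deriv B s| ≤ M := by
  let B : ContDiffBump (0 : ℝ) := ⟨1, 2, one_pos, one_lt_two⟩
  have hB : ContDiff ℝ ∞ (B : ℝ → ℝ) := B.contDiff
  have h0 : ∀ s, 2 ≤ |s| → B s = 0 := fun s hs =>
    B.zero_of_le_dist (by rw [Real.dist_eq, sub_zero]; exact hs)
  have hd : Continuous (deriv (B : ℝ → ℝ)) := hB.continuous_deriv (by simp)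
  have hc : HasCompactSupport fun s : ℝ => s ^ 2 * deriv (B : ℝ → ℝ) s :=
    (B.hasCompactSupport.deriv).mul_left
  obtain ⟨M, hM⟩ := ((continuous_pow 2).mul hd).bounded_above_of_compact_support hc
  refine ⟨B, M, hB, fun s hs => ?_, h0, fun s => ?_, fun s => B.neg s, (norm_nonneg _).trans (hM 0),
    hM⟩
  · exact B.one_of_mem_closedBall (by rw [Metric.mem_closedBall, Real.dist_eq, sub_zero]; exact hs)
  · rcases le_or_gt 2 |s| with h | h
    · rw [h0 s h]
      norm_num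
    · rw [abs_mul, abs_of_nonneg B.nonneg]
      have h1 : B s ≤ 1 := B.le_one
      have h2 : 0 ≤ B s := B.nonneg
      nlinarith [abs_nonneg s]

theorem bounded_PP {c : ℝ → ℝ} (hc : PP c) : ∃ C : ℝ, 0 ≤ C ∧ ∀ θ, |c θ| ≤ C := by
  obtain ⟨C, hC⟩ := (isCompact_Icc (a := (0 : ℝ)) (b := 2 * Real.pi)).exists_bound_of_continuousOn
    hc.smooth.continuous.continuousOn
  have hp : Function.Periodic c (2 * Real.pi) := hc.per
  have hb : ∀ θ, |c θ| ≤ C := by
    intro θ
    obtain ⟨y, hy, h⟩ := hp.exists_mem_Ico₀ Real.two_pi_pos θ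
    rw [h]
    exact hC y ⟨hy.1, hy.2.le⟩
  exact ⟨C, (abs_nonneg _).trans (hb 0), hb⟩

/-- the second derivative of a composition with `t / (1 - c t / 2)` -/
theorem second {Y k : ℝ → ℝ} {c δ : ℝ} (hδ : 0 < δ) (hY : ContDiff ℝ ∞ Y)
    (hk : ∀ t, |t| < δ → 0 < 1 - c * t / 2 ∧ k t = t / (1 - c * t / 2)) :
    deriv (fun t => Y (k t)) 0 = deriv Y 0 ∧
      deriv (deriv fun t => Y (k t)) 0 = deriv (deriv Y) 0 + c * deriv Y 0 := by
  have hev : ∀ᶠ t : ℝ in 𝓝 0, |t| < δ := by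
    have : Tendsto (fun t : ℝ => |t|) (𝓝 0) (𝓝 0) := by
      have := (continuous_abs (G := ℝ)).tendsto 0
      rwa [abs_zero] at this
    exact this.eventually (gt_mem_nhds hδ)
  have hYd : ∀ x, HasDerivAt Y (deriv Y x) x := fun x =>
    (hY.differentiable (by simp) x).hasDerivAt
  have hkd : ∀ t, |t| < δ → HasDerivAt k (1 / (1 - c * t / 2) ^ 2) t := by
    intro t ht
    have hev' : k =ᶠ[𝓝 t] fun s => s / (1 - c * s / 2) := by
      have h1 : ∀ᶠ s : ℝ in 𝓝 t, |s| < δ :=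
        (continuous_abs.tendsto t).eventually (gt_mem_nhds ht)
      filter_upwards [h1] with s hs
      exact (hk s hs).2
    have hne : (1 - c * t / 2) ≠ 0 := (hk t ht).1.ne'
    have h2 : HasDerivAt (fun s : ℝ => 1 - c * s / 2) (-(c / 2)) t := by
      have h3 := ((hasDerivAt_id t).const_mul (c / 2)).const_sub 1
      have e : (fun s : ℝ => 1 - c * s / 2) = fun s => 1 - c / 2 * id s := by
        funext s
        simp only [id]
        ring
      rw [e]
      simpa using h3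
    have h4 := (hasDerivAt_id t).div h2 hne
    have h5 : HasDerivAt (fun s => s / (1 - c * s / 2)) (1 / (1 - c * t / 2) ^ 2) t := by
      have e : (1 * (1 - c * t / 2) - id t * -(c / 2)) / (1 - c * t / 2) ^ 2 =
          1 / (1 - c * t / 2) ^ 2 := by
        congr 1
        simp only [id]
        ring
      rw [e] at h4
      exact h4
    exact h5.congr_of_eventuallyEq hev'
  have hcomp : ∀ t, |t| < δ → HasDerivAt (fun t => Y (k t))
      (deriv Y (k t) * (1 / (1 - c * t / 2) ^ 2)) t := fun t ht =>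
    (hYd (k t)).comp t (hkd t ht)
  have h0 : |(0 : ℝ)| < δ := by rwa [abs_zero]
  have hk0 : k 0 = 0 := by
    rw [(hk 0 h0).2, zero_div]
  constructor
  · rw [(hcomp 0 h0).deriv, hk0]
    simp
  · have hev2 : (deriv fun t => Y (k t)) =ᶠ[𝓝 0]
        fun t => deriv Y (k t) * (1 / (1 - c * t / 2) ^ 2) := by
      filter_upwards [hev] with t ht
      exact (hcomp t ht).deriv
    have hY' : ContDiff ℝ ∞ (deriv Y) := (contDiff_infty_iff_deriv.1 hY).2
    have h1 : HasDerivAt (fun t => deriv Y (k t)) (deriv (deriv Y) 0 * 1) 0 := by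
      have h2 := (hY'.differentiable (by simp) (k 0)).hasDerivAt.comp (0 : ℝ) (hkd 0 h0)
      rw [hk0] at h2
      simpa [Function.comp_def] using h2
    have h2 : HasDerivAt (fun t : ℝ => 1 / (1 - c * t / 2) ^ 2) c 0 := by
      have h3 : HasDerivAt (fun s : ℝ => 1 - c * s / 2) (-(c / 2)) 0 := by
        have h3 := ((hasDerivAt_id (0 : ℝ)).const_mul (c / 2)).const_sub 1
        have e : (fun s : ℝ => 1 - c * s / 2) = fun s => 1 - c / 2 * id s := by
          funext s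
          simp only [id]
          ring
        rw [e]
        simpa using h3
      have h4 := (h3.pow 2).inv (by norm_num)
      have e : (fun t : ℝ => 1 / (1 - c * t / 2) ^ 2) = fun t : ℝ => ((1 - c * t / 2) ^ 2)⁻¹ := by
        funext t
        rw [one_div]
      rw [e]
      have h5 : HasDerivAt (fun t : ℝ => ((1 - c * t / 2) ^ 2)⁻¹) _ 0 := h4
      exact h5.congr_deriv (by norm_num; ring)
    have h3 := h1.mul h2
    rw [hev2.deriv_eq]
    have h4 : HasDerivAt (fun t => deriv Y (k t) * (1 / (1 - c * t / 2) ^ 2))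
        (deriv (deriv Y) 0 + c * deriv Y 0) 0 := by
      have h5 : HasDerivAt (fun t => deriv Y (k t) * (1 / (1 - c * t / 2) ^ 2)) _ 0 := h3
      refine h5.congr_deriv ?_
      rw [hk0]
      norm_num
      ring
    exact h4.deriv

theorem gx_MOD : S_MOD := by
  intro X Z hW c hc
  obtain ⟨B, M, hBs, hB1, hB2, hB3, hB4, hM0, hM⟩ := exists_bump
  obtain ⟨C, hC0, hC⟩ := bounded_PP hc
  set δ : ℝ := 1 / (1 + C * (2 + M)) with hδ
  have hden : 0 < 1 + C * (2 + M) := by positivity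
  have hδ0 : 0 < δ := by positivity
  have hδC : C * δ * (2 + M) < 1 := by
    have e : δ * (1 + C * (2 + M)) = 1 := by
      rw [hδ]
      field_simp
    nlinarith
  have hCM : 0 ≤ C * δ * M := by positivity
  have hCδ0 : 0 ≤ C * δ := by positivity
  have hCδ : C * δ < 1 / 2 := by nlinarith
  have hCδM : C * δ * M < 1 := by nlinarith
  -- the denominator
  set q : ℝ → ℝ := fun s => B s * s with hq
  set D : ℝ × ℝ → ℝ := fun x => 1 - c x.1 / 2 * (δ * q (x.2 / δ)) with hD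
  have hqs : ContDiff ℝ ∞ q := hBs.mul contDiff_id
  have hDs : ContDiff ℝ ∞ D := by
    refine contDiff_const.sub (((hc.smooth.comp contDiff_fst).div_const 2).mul
      (contDiff_const.mul (hqs.comp (contDiff_snd.div_const δ))))
  have hcq : ∀ θ s, |c θ / 2 * (δ * q s)| ≤ C * δ := by
    intro θ s
    rw [abs_mul, abs_mul, abs_div, abs_two, abs_of_pos hδ0]
    have h1 := hC θ
    have h2 : |q s| ≤ 2 := hB3 s
    calc |c θ| / 2 * (δ * |q s|) ≤ C / 2 * (δ * 2) := by gcongr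
      _ = C * δ := by ring
  have hDpos : ∀ x, 0 < D x := by
    intro x
    have h1 := (abs_le.1 (hcq x.1 (x.2 / δ))).2
    simp only [hD]
    linarith
  set h : ℝ × ℝ → ℝ := fun x => x.2 / D x with hh
  have hhs : ContDiff ℝ ∞ h := contDiff_snd.div hDs fun x => (hDpos x).ne'
  -- the derivative of `h` in the second variable
  have hBd : ∀ s, HasDerivAt B (deriv B s) s := fun s =>
    (hBs.differentiable (by simp) s).hasDerivAt
  have hqd : ∀ s, HasDerivAt q (deriv B s * s + B s) s := by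
    intro s
    have h1 : HasDerivAt q (deriv B s * id s + B s * 1) s := (hBd s).mul (hasDerivAt_id s)
    exact h1.congr_deriv (by simp)
  have hhd : ∀ θ τ, 0 < deriv (fun b => h (θ, b)) τ := by
    intro θ τ
    have h1 : HasDerivAt (fun b : ℝ => b / δ) (1 / δ) τ := (hasDerivAt_id τ).div_const δ
    have h2 : HasDerivAt (fun b : ℝ => q (b / δ))
        ((deriv B (τ / δ) * (τ / δ) + B (τ / δ)) * (1 / δ)) τ :=
      HasDerivAt.comp (h₂ := q) (h := fun b : ℝ => b / δ) τ (hqd (τ / δ)) h1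
    have h3 : HasDerivAt (fun b : ℝ => D (θ, b))
        (-(c θ / 2 * (δ * ((deriv B (τ / δ) * (τ / δ) + B (τ / δ)) * (1 / δ))))) τ :=
      ((h2.const_mul δ).const_mul (c θ / 2)).const_sub 1
    have h4 := (hasDerivAt_id τ).div h3 (hDpos (θ, τ)).ne'
    have h5 : deriv (fun b => h (θ, b)) τ = (1 * D (θ, τ) - id τ *
        (-(c θ / 2 * (δ * ((deriv B (τ / δ) * (τ / δ) + B (τ / δ)) * (1 / δ)))))) /
          D (θ, τ) ^ 2 := h4.deriv
    rw [h5]
    apply div_pos _ (pow_pos (hDpos _) 2)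
    have h6 : 1 * D (θ, τ) - id τ *
        (-(c θ / 2 * (δ * ((deriv B (τ / δ) * (τ / δ) + B (τ / δ)) * (1 / δ))))) =
        1 + c θ / 2 * δ * ((τ / δ) ^ 2 * deriv B (τ / δ)) := by
      simp only [hD, hq, id]
      field_simp
      ring
    rw [h6]
    have h7 := hM (τ / δ)
    have h8 : |c θ / 2 * δ * ((τ / δ) ^ 2 * deriv B (τ / δ))| ≤ C / 2 * δ * M := by
      rw [abs_mul, abs_mul, abs_div, abs_two, abs_of_pos hδ0]
      have h9 := hC θ
      gcongr
    have h9 := (abs_le.1 h8).1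
    linarith
  have hhsurj : ∀ θ T : ℝ, ∃ β₁ β₂ : ℝ, h (θ, β₁) ≤ T ∧ T ≤ h (θ, β₂) := by
    intro θ T
    have h1 : ∀ b : ℝ, 2 * δ ≤ |b| → h (θ, b) = b := by
      intro b hb
      have h2 : q (b / δ) = 0 := by
        simp only [hq]
        rw [hB2, zero_mul]
        rw [abs_div, abs_of_pos hδ0, le_div_iff₀ hδ0]
        exact hb
      simp only [hh, hD]
      rw [h2]
      simp
    have hm : 0 ≤ max |T| (2 * δ) := le_max_of_le_left (abs_nonneg _)
    refine ⟨-max |T| (2 * δ), max |T| (2 * δ), ?_, ?_⟩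
    · rw [h1 _ (by rw [abs_neg, abs_of_nonneg hm]; exact le_max_right _ _)]
      have h2 := neg_abs_le T
      have h3 := le_max_left |T| (2 * δ)
      linarith
    · rw [h1 _ (by rw [abs_of_nonneg hm]; exact le_max_right _ _)]
      exact (le_abs_self T).trans (le_max_left _ _)
  obtain ⟨g, hgs, hg1, hg2⟩ := inv_global h hhs hhd hhsurj
  have hh0 : ∀ θ, h (θ, 0) = 0 := by
    intro θ
    simp only [hh, zero_div]
  have hhper : ∀ θ t, h (θ + 2 * Real.pi, t) = h (θ, t) := by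
    intro θ t
    simp only [hh, hD, hc.per]
  have hnear : ∀ θ t, |t| < δ → 0 < 1 - c θ * t / 2 ∧ h (θ, t) = t / (1 - c θ * t / 2) := by
    intro θ t ht
    have e1 : B (t / δ) = 1 := by
      apply hB1
      rw [abs_div, abs_of_pos hδ0, div_le_one hδ0]
      exact ht.le
    have e2 : D (θ, t) = 1 - c θ * t / 2 := by
      simp only [hD, hq]
      rw [e1]
      field_simp
    constructor
    · rw [← e2]
      exact hDpos _
    · simp only [hh]
      rw [e2]
  have hXs1 : ∀ θ : ℝ, ContDiff ℝ ∞ fun t => (X (θ, t)).1 := fun θ =>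
    contDiff_fst.comp (hW.smX.comp (contDiff_const.prodMk contDiff_id))
  have hXs2 : ∀ θ : ℝ, ContDiff ℝ ∞ fun t => (X (θ, t)).2 := fun θ =>
    contDiff_snd.comp (hW.smX.comp (contDiff_const.prodMk contDiff_id))
  have hd1 := fun θ => second (k := fun t => h (θ, t)) hδ0 (hXs1 θ) (hnear θ)
  have hd2 := fun θ => second (k := fun t => h (θ, t)) hδ0 (hXs2 θ) (hnear θ)
  have hWeb : Web (fun x => X (x.1, h x)) (fun x => ((Z x).1, g ((Z x).1, (Z x).2))) := by
    refine ⟨?_, ?_, ?_, ?_, ?_, ?_, ?_, ?_, ?_, ?_⟩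
    · exact hW.smX.comp (contDiff_fst.prodMk hhs)
    · exact (contDiff_fst.comp hW.smZ).prodMk (hgs.comp
        ((contDiff_fst.comp hW.smZ).prodMk (contDiff_snd.comp hW.smZ)))
    · rintro ⟨θ, t⟩
      simp only [hW.left, hg2]
    · intro x
      simp only [hg1]
      exact hW.right x
    · intro θ t
      simp only [hhper]
      exact hW.per θ _
    · intro θ
      simp only [hh0]
      exact hW.axis θ
    · intro θ t ht
      exact hW.sgn θ _ (div_pos ht (hDpos _))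
    · intro θ t ht
      exact hW.sgn' θ _ (div_neg_of_neg_of_pos ht (hDpos _))
    · intro θ
      have e := (hd1 θ).1
      simp only at e ⊢
      rw [e]
      exact hW.der1 θ
    · intro θ
      have e := (hd2 θ).1
      simp only at e ⊢
      rw [e]
      exact hW.der2 θ
  refine ⟨fun x => X (x.1, h x), fun x => ((Z x).1, g ((Z x).1, (Z x).2)), hWeb, ⟨δ, hδ0, ?_⟩,
    fun θ => (hd1 θ).1, fun θ => (hd2 θ).1, fun θ => (hd2 θ).2, ?_⟩
  · intro θ t ht
    refine ⟨(hnear θ t ht).1, ?_⟩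
    simp only [(hnear θ t ht).2]
  · intro hMW hodd
    refine { hWeb with mir := ?_ }
    intro θ t
    have hqodd : ∀ s, q (-s) = -q s := by
      intro s
      simp only [hq, hB4]
      ring
    have e1 : h (-θ, -t) = -h (θ, t) := by
      simp only [hh, hD, hodd θ, neg_div, hqodd]
      ring_nf
    show X (-θ, h (-θ, -t)) = _
    rw [e1]
    exact hMW.mir θ _

end Pool.Agent.H181.GX

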